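import Pool.Agent.V5helper14.Hel.Final

/-!
# Helly numbers for consistently ordered hyperplane transversals: none in dimension at least three

For pairwise disjoint compact convex sets in `ℝ^d`, `d ≥ 3`, with a `(d - 1)`-ordering, there is NO
number `h` such that consistent hyperplane transversals of all subfamilies of at most `h` members
imply a consistent hyperplane transversal of the whole family: `h(d) = ∞` for every `d ≥ 3`, with the
definitions of the problem file. (The dimension is `d = k + 1`.) In particular the conjectured bound
`h(d) ≤ 2 d`, the suggestion `h(d) = d + 2` and the quoted bound `h(d) ≤ 2 d + 1` all fail for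
`d ≥ 3` when pairwise disjointness is the only separation hypothesis. The sets of the example are line
segments and single points, and the points `p_i` are distinct.

Idea (`d = 3`). Two of the sets are points, so that only a pencil of planes has to be considered, and
a projective change of coordinates turns the pencil into the planes `t = const`. A triple of segments
which is nearly collinear in all these planes can have an orientation which is a polynomial of degree
two in `t`: it is wrong exactly for `t` in a given short interval. The triples with these intervals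
`[j / m, (j + 1) / m]` exclude all `t ∈ [0, 1]`, but a subfamily of fewer than `m` sets misses one of
the triples, and then the middle of the interval is allowed. All other orientations are constant. In
higher dimensions further points are added.
-/

set_option autoImplicit false

namespace Pool.Agent.Results.MP_b157f3_co.NoFiniteHellyNumber

open Pool.Agent.V5helper14

/-- The determinant with the rows `(1, q (f 0)), ..., (1, q (f k))`; its sign is the orientation of
the tuple of points `q (f 0), ..., q (f k)` of `ℝ^k`. -/
noncomputable def orient {k n : ℕ} (q : Fin n → Fin k → ℝ) (f : Fin (k + 1) → Fin n) : ℝ :=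
  Matrix.det (Matrix.of fun i : Fin (k + 1) => (Fin.cons 1 (q (f i)) : Fin (k + 1) → ℝ))

/-- The points `x i`, `i ∈ B`, have the same `k`-order type as the points `p i`, `i ∈ B`: the same
orientations of all tuples `i₀ < ... < i_k` from `B`. -/
def SameOrderType {k n : ℕ} (x p : Fin n → Fin k → ℝ) (B : Finset (Fin n)) : Prop :=
  ∀ f : Fin (k + 1) → Fin n, StrictMono f → (∀ i, f i ∈ B) →
    SignType.sign (orient x f) = SignType.sign (orient p f)

/-- The members `a i`, `i ∈ B`, of a family of sets in `ℝ^(k+1)` are met by an oriented hyperplane
consistently with the `k`-ordering given by the points `p i`. An oriented hyperplane `F` with an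
orientation-preserving affine coordinate system is an injective affine map `φ : ℝ^k → ℝ^(k+1)` (with
image `F`, oriented by `φ`); the points picked in `a i ∩ F` are the points `φ (x i)`. -/
def MetConsistently {k n : ℕ} (a : Fin n → Set (Fin (k + 1) → ℝ)) (p : Fin n → Fin k → ℝ)
    (B : Finset (Fin n)) : Prop :=
  ∃ φ : (Fin k → ℝ) →ᵃ[ℝ] (Fin (k + 1) → ℝ), Function.Injective φ ∧
    ∃ x : Fin n → Fin k → ℝ, (∀ i ∈ B, φ (x i) ∈ a i) ∧ SameOrderType x p B

/-- The property of `h` in the definition of the number `h(d)`, `d = k + 1`: for every `k`-ordered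
finite family of pairwise disjoint nonempty compact convex sets in `ℝ^d`, if every subfamily of at
most `h` members is met consistently by an oriented hyperplane, then so is the whole family. -/
def HellyProperty (k h : ℕ) : Prop :=
  ∀ (n : ℕ) (a : Fin n → Set (Fin (k + 1) → ℝ)) (p : Fin n → Fin k → ℝ), Function.Injective p →
    (∀ i, (a i).Nonempty) → (∀ i, IsCompact (a i)) → (∀ i, Convex ℝ (a i)) →
    (∀ i j, i ≠ j → Disjoint (a i) (a j)) →
    (∀ B : Finset (Fin n), B.card ≤ h → MetConsistently a p B) →
    MetConsistently a p Finset.univ

/-- **There is no finite Helly number in dimension `d = k + 1 ≥ 3`**: for every `h` there is a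
`k`-ordered family of pairwise disjoint segments and points of `ℝ^(k+1)` such that every subfamily of
at most `h` members is met consistently by an oriented hyperplane, but the whole family is not. So no
`h` has the property which defines `h(d)`. -/
theorem result (k : ℕ) (hk : 2 ≤ k) (h : ℕ) :
    (∃ (n : ℕ) (a : Fin n → Set (Fin (k + 1) → ℝ)) (p : Fin n → Fin k → ℝ),
      Function.Injective p ∧ (∀ i, ∃ u v, a i = segment ℝ u v) ∧
      (∀ i j, i ≠ j → Disjoint (a i) (a j)) ∧
      (∀ B : Finset (Fin n), B.card ≤ h → MetConsistently a p B) ∧
      ¬ MetConsistently a p Finset.univ) ∧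
    ¬ HellyProperty k h := by
  have main : ∃ (n : ℕ) (a : Fin n → Set (Fin (k + 1) → ℝ)) (p : Fin n → Fin k → ℝ),
      Function.Injective p ∧ (∀ i, ∃ u v, a i = segment ℝ u v) ∧
      (∀ i j, i ≠ j → Disjoint (a i) (a j)) ∧
      (∀ B : Finset (Fin n), B.card ≤ h → MetConsistently a p B) ∧
      ¬ MetConsistently a p Finset.univ := by
    obtain ⟨k, rfl⟩ : ∃ k', k = k' + 2 := ⟨k - 2, by omega⟩
    let e := Hel.exAll h k
    have := e.fin
    let s : e.ι ≃ Fin (Fintype.card e.ι) := Fintype.equivFin e.ι
    refine ⟨Fintype.card e.ι, fun i => Hel.sgm e.pos (s.symm i), fun i => e.pos (s.symm i) 2,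
      ?_, ?_, ?_, ?_, ?_⟩
    · exact e.inj.comp s.symm.injective
    · intro i
      exact ⟨_, _, rfl⟩
    · intro i j hij
      exact e.disj _ _ (fun h => hij (s.symm.injective h))
    · intro B hB
      obtain ⟨t, ht0, ht1, ht⟩ := e.few (B.map s.symm.toEmbedding) (by rwa [Finset.card_map])
      refine ⟨Hel.par (k + 1) t, Hel.par_injective _ _, fun i => e.pos (s.symm i) t, ?_, ?_⟩
      · intro i _
        exact e.seg (s.symm i) t ht0 ht1
      · intro f _ hf
        have := ht (fun i => s.symm (f i)) (fun i => by
          rw [Finset.mem_coe, Finset.mem_map]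
          exact ⟨f i, hf i, rfl⟩)
        rw [one_mul] at this
        exact this
    · rintro ⟨φ, -, x, hx, hord⟩
      obtain ⟨N, hN, c, hc⟩ := Hel.exists_normal φ
      obtain ⟨t, ht0, ht1, ht⟩ := e.plane N c hN (fun j => φ (x (s j)))
        (fun j => by
          have h1 : φ (x (s j)) ∈ Hel.sgm e.pos (s.symm (s j)) := hx (s j) (Finset.mem_univ _)
          rwa [Equiv.symm_apply_apply] at h1)
        (fun j => hc _)
      let τ : (Fin (k + 3) → ℝ) →ₗ[ℝ] (Fin (k + 2) → ℝ) := LinearMap.funLeft ℝ ℝ Fin.succ
      let ψ : (Fin (k + 2) → ℝ) →ᵃ[ℝ] (Fin (k + 2) → ℝ) := τ.toAffineMap.comp φ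
      obtain ⟨D, hD⟩ := Hel.orient_affine ψ
      have hψ : ∀ j, ψ (x (s j)) = e.pos j t := by
        intro j
        have h1 : φ (x (s j)) = Hel.pt e.pos j t := ht j
        show τ (φ (x (s j))) = _
        rw [h1]
        ext i
        rfl
      have hag : Hel.Agree 1 x (fun i => e.pos (s.symm i) 2) Set.univ := by
        apply Hel.agree_of_strictMono
        intro f hf _
        rw [one_mul]
        exact hord f hf (fun i => Finset.mem_univ _)
      apply e.all t ht0 ht1 (SignType.sign D)
      intro f _
      have h1 : Hel.orient (fun j => e.pos j t) f = D * Hel.orient (fun j => x (s j)) f := by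
        rw [← hD]
        congr 1
        funext j
        exact (hψ j).symm
      have h2 := hag (fun i => s (f i)) (fun _ => Set.mem_univ _)
      rw [one_mul] at h2
      have h3 : Hel.orient (fun i => e.pos (s.symm i) 2) (fun i => s (f i)) =
          Hel.orient (fun j => e.pos j 2) f := by
        unfold Hel.orient
        simp only [Equiv.symm_apply_apply]
      rw [h1, sign_mul]
      congr 1
      rw [← h3, ← h2]
      rfl
  refine ⟨main, ?_⟩
  intro hH
  obtain ⟨n, a, p, hp, hseg, hdisj, hfew, hall⟩ := main
  apply hall
  apply hH n a p hp _ _ _ hdisj hfew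
  · intro i
    obtain ⟨u, v, huv⟩ := hseg i
    rw [huv]
    exact ⟨u, left_mem_segment ℝ u v⟩
  · intro i
    obtain ⟨u, v, huv⟩ := hseg i
    rw [huv, ← convexHull_pair]
    exact (Set.toFinite _).isCompact_convexHull ℝ
  · intro i
    obtain ⟨u, v, huv⟩ := hseg i
    rw [huv]
    exact convex_segment u v

end Pool.Agent.Results.MP_b157f3_co.NoFiniteHellyNumber
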